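import Pool.Agent.Helper32.Tile.Line

set_option autoImplicit false

namespace Pool.Agent.Helper32.Tile

open Set Function

/-- the translates of `T` along the coordinate axes of `ι → ℤ` -/
def BT (ι : Type) (T : Finset ℤ) : Set (Set (ι → ℤ)) :=
  {S | ∃ (v : ι → ℤ) (i : ι), S = {z | z i - v i ∈ T ∧ ∀ j, j ≠ i → z j = v j}}

theorem bt_line (T : Finset ℤ) :
    ∀ S ∈ lineF T, (Equiv.funUnique Unit ℤ).symm '' S ∈ BT Unit T := by
  rintro S ⟨y, rfl⟩
  refine ⟨fun _ => y, (), ?_⟩
  ext z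
  simp only [mem_image, mem_ofPred_eq]
  constructor
  · rintro ⟨x, hx, rfl⟩
    exact ⟨hx, fun j hj => absurd rfl hj⟩
  · rintro ⟨h, _⟩
    exact ⟨z (), h, by funext j; rfl⟩

theorem bt_prod {ι κ : Type} (T : Finset ℤ) :
    ∀ S ∈ prodF (BT ι T) (BT κ T), (Equiv.sumArrowEquivProdArrow ι κ ℤ).symm '' S ∈ BT (ι ⊕ κ) T := by
  rintro S (⟨S₀, ⟨v, i, rfl⟩, q, rfl⟩ | ⟨p, S₀, ⟨v, i, rfl⟩, rfl⟩)
  · refine ⟨Sum.elim v q, Sum.inl i, ?_⟩
    ext z
    simp only [mem_image, mem_ofPred_eq, Prod.exists]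
    constructor
    · rintro ⟨a, b, ⟨⟨h1, h2⟩, rfl⟩, rfl⟩
      refine ⟨by simpa using h1, ?_⟩
      rintro (j | j) hj
      · have : j ≠ i := fun h => hj (by rw [h])
        simpa using h2 j this
      · simp
    · rintro ⟨h1, h2⟩
      refine ⟨fun j => z (Sum.inl j), fun j => z (Sum.inr j), ⟨⟨by simpa using h1, ?_⟩, ?_⟩, ?_⟩
      · intro j hj
        have := h2 (Sum.inl j) (fun h => hj (Sum.inl.inj h))
        simpa using this
      · funext j
        have := h2 (Sum.inr j) (by simp)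
        simpa using this
      · funext j
        rcases j with j | j <;> simp
  · refine ⟨Sum.elim p v, Sum.inr i, ?_⟩
    ext z
    simp only [mem_image, mem_ofPred_eq, Prod.exists]
    constructor
    · rintro ⟨a, b, ⟨rfl, h1, h2⟩, rfl⟩
      refine ⟨by simpa using h1, ?_⟩
      rintro (j | j) hj
      · simp
      · have : j ≠ i := fun h => hj (by rw [h])
        simpa using h2 j this
    · rintro ⟨h1, h2⟩
      refine ⟨fun j => z (Sum.inl j), fun j => z (Sum.inr j), ⟨?_, by simpa using h1, ?_⟩, ?_⟩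
      · funext j
        have := h2 (Sum.inl j) (by simp)
        simpa using this
      · intro j hj
        have := h2 (Sum.inr j) (fun h => hj (Sum.inr.inj h))
        simpa using this
      · funext j
        rcases j with j | j <;> simp

theorem bt_pow {ι κ : Type} [DecidableEq κ] (T : Finset ℤ) :
    ∀ S ∈ powF κ (BT ι T), (Equiv.curry κ ι ℤ).symm '' S ∈ BT (κ × ι) T := by
  rintro S ⟨k, w, S₀, ⟨v, i, rfl⟩, rfl⟩
  refine ⟨fun x => if x.1 = k then v x.2 else w x.1 x.2, (k, i), ?_⟩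
  ext z
  simp only [mem_image, mem_ofPred_eq]
  constructor
  · rintro ⟨_, ⟨p, ⟨h1, h2⟩, rfl⟩, rfl⟩
    refine ⟨by simpa [Equiv.curry] using h1, ?_⟩
    rintro ⟨a, b⟩ hab
    by_cases ha : a = k
    · subst ha
      have hb : b ≠ i := fun h => hab (by rw [h])
      simpa [Equiv.curry] using h2 b hb
    · simp [Equiv.curry, ha]
  · rintro ⟨h1, h2⟩
    refine ⟨fun a b => z (a, b), ⟨fun b => z (k, b), ⟨by simpa using h1, ?_⟩, ?_⟩, ?_⟩
    · intro b hb
      have := h2 (k, b) (fun h => hb (Prod.mk.inj h).2)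
      simpa using this
    · funext a b
      by_cases ha : a = k
      · subst ha
        simp
      · rw [update_of_ne ha]
        have := h2 (a, b) (fun h => ha (Prod.mk.inj h).1)
        simp only [if_neg ha] at this
        exact this.symm
    · funext x
      rfl

theorem bt_reindex {ι κ : Type} (e : ι ≃ κ) (T : Finset ℤ) :
    ∀ S ∈ BT ι T, (Equiv.arrowCongr e (Equiv.refl ℤ)) '' S ∈ BT κ T := by
  rintro S ⟨v, i, rfl⟩
  refine ⟨fun j => v (e.symm j), e i, ?_⟩
  ext z
  simp only [mem_image, mem_ofPred_eq]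
  constructor
  · rintro ⟨x, ⟨h1, h2⟩, rfl⟩
    refine ⟨by simpa [Equiv.arrowCongr] using h1, ?_⟩
    intro j hj
    have : e.symm j ≠ i := fun h => hj (by rw [← h]; simp)
    simpa [Equiv.arrowCongr] using h2 _ this
  · rintro ⟨h1, h2⟩
    refine ⟨fun j => z (e j), ⟨by simpa using h1, ?_⟩, ?_⟩
    · intro j hj
      have := h2 (e j) (fun h => hj (e.injective h))
      simpa using this
    · funext j
      simp [Equiv.arrowCongr]

theorem Good.transport {P Q : Type*} {B : Set (Set P)} {C : Set (Set Q)} (e : P ≃ Q)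
    (he : ∀ S ∈ B, e '' S ∈ C) {l M : ℕ} {L : P → Finset ℕ} (h : Good B l M L) :
    Good C l M (fun q => L (e.symm q)) := by
  refine ⟨fun p => h.sub _, fun p => h.card _, fun i => ?_⟩
  apply til_equiv' e he
  simpa using h.til i

/-- There is an index set `ι` such that for every `T` of size `l`, the space `ι → ℤ` has an
`l`-fold colouring with `M` colours. -/
def A (l M : ℕ) : Prop :=
  ∃ (ι : Type) (_ : Fintype ι), ∀ T : Finset ℤ, T.card = l →
    ∃ L : (ι → ℤ) → Finset ℕ, Good (BT ι T) l M L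

theorem A_base (l : ℕ) (hl : 1 ≤ l) : A l (l * l) := by
  refine ⟨Unit, inferInstance, fun T hT => ?_⟩
  have hne : T.Nonempty := by
    rw [← Finset.card_pos]
    omega
  obtain ⟨L, hL⟩ := base T hne
  rw [hT] at hL
  exact ⟨_, hL.transport _ (bt_line T)⟩

theorem A_step (l M : ℕ) (hl : 1 ≤ l) (hM : l + 1 ≤ M) (h : A l (M + 1)) : A l M := by
  obtain ⟨ι, _, h⟩ := h
  refine ⟨ι ⊕ (ι ⊕ ι), inferInstance, fun T hT => ?_⟩
  obtain ⟨L, hL⟩ := h T hT
  obtain ⟨Z, hZ1, hZ2⟩ := cover hl hM hL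
  have hZ1' : ∀ j ∈ Finset.Ico l (M + 1),
      Til (BT (ι ⊕ ι) T) ((Equiv.sumArrowEquivProdArrow ι ι ℤ).symm '' Z j) := by
    intro j hj
    exact til_equiv _ (bt_prod T) (hZ1 j hj)
  obtain ⟨L', hL'⟩ := reduce (by omega) hL hZ1' (by
    intro q
    obtain ⟨j, hj, hq⟩ := hZ2 (Equiv.sumArrowEquivProdArrow ι ι ℤ q)
    exact ⟨j, hj, _, hq, by simp⟩)
  exact ⟨_, hL'.transport _ (bt_prod T)⟩

theorem A_end (l : ℕ) (hl : 2 ≤ l) : A l (l + 1) := by
  have key : ∀ n, A l (l + 1 + n) → A l (l + 1) := by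
    intro n
    induction n with
    | zero => exact fun h => h
    | succ n ih =>
      intro h
      exact ih (A_step l (l + 1 + n) (by omega) (by omega) h)
  have h1 : l + 1 ≤ l * l := by nlinarith
  obtain ⟨n, hn⟩ := Nat.exists_eq_add_of_le h1
  apply key n
  rw [← hn]
  exact A_base l (by omega)

/-- the colour missing at a point -/
theorem exists_psi {P : Type*} {B : Set (Set P)} {l : ℕ} {L : P → Finset ℕ}
    (hL : Good B l (l + 1) L) : ∃ ψ : P → Fin (l + 1), ∀ i, Til B {p | ψ p ≠ i} := by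
  have h1 : ∀ p, ∃ i : Fin (l + 1), ∀ j : Fin (l + 1), (j : ℕ) ∈ L p ↔ i ≠ j := by
    intro p
    have hc : (Finset.range (l + 1) \ L p).card = 1 := by
      rw [Finset.card_sdiff_of_subset (hL.sub p), Finset.card_range, hL.card p]
      omega
    obtain ⟨i, hi⟩ := Finset.card_eq_one.1 hc
    have hi' : i ∈ Finset.range (l + 1) \ L p := by rw [hi]; simp
    rw [Finset.mem_sdiff, Finset.mem_range] at hi'
    refine ⟨⟨i, hi'.1⟩, fun j => ?_⟩
    constructor
    · rintro h rfl
      exact hi'.2 h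
    · intro h
      by_contra h2
      have : (j : ℕ) ∈ Finset.range (l + 1) \ L p :=
        Finset.mem_sdiff.2 ⟨Finset.mem_range.2 j.2, h2⟩
      rw [hi, Finset.mem_singleton] at this
      exact h (Fin.ext this.symm)
  choose ψ hψ using h1
  refine ⟨ψ, fun i => ?_⟩
  convert hL.til i using 1
  ext p
  exact (hψ p i).symm

/-- For every `l ≥ 1` there is a finite index set `ι` such that every `T` of size `l`
tiles `ι → ℤ` by translates along the axes. -/
theorem main (l : ℕ) (hl : 1 ≤ l) :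
    ∃ (ι : Type) (_ : Fintype ι), ∀ T : Finset ℤ, T.card = l → Til (BT ι T) univ := by
  classical
  rcases Nat.lt_or_ge l 2 with h | h
  · have hl1 : l = 1 := by omega
    subst hl1
    refine ⟨Unit, inferInstance, fun T hT => ?_⟩
    obtain ⟨a, rfl⟩ := Finset.card_eq_one.1 hT
    refine ⟨fun z => {z}, fun z _ => ⟨⟨fun _ => z () - a, (), ?_⟩, rfl, by simp, ?_⟩⟩
    · ext z'
      simp only [mem_singleton_iff, Finset.mem_singleton, mem_ofPred_eq]
      constructor
      · rintro rfl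
        exact ⟨by ring, fun j hj => absurd rfl hj⟩
      · rintro ⟨h1, _⟩
        funext j
        have : z' () = z () := by linarith
        exact this
    · rintro y rfl
      rfl
  · obtain ⟨ι, _, hA⟩ := A_end l h
    refine ⟨Unit ⊕ (Finset (Fin (l * l) × Fin l) × ι), inferInstance, fun T hT => ?_⟩
    obtain ⟨L, hL⟩ := hA T hT
    obtain ⟨ψ, hψ⟩ := exists_psi hL
    have h1 := final T hT h hψ
    -- transport
    have h2 : Til (prodF (BT Unit T) (BT (Finset (Fin (l * l) × Fin l) × ι) T))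
        (((Equiv.funUnique Unit ℤ).symm.prodCongr
          (Equiv.curry (Finset (Fin (l * l) × Fin l)) ι ℤ).symm) '' univ) := by
      refine til_equiv _ ?_ h1
      rintro S (⟨S₀, hS₀, q, rfl⟩ | ⟨p, S₀, hS₀, rfl⟩)
      · refine Or.inl ⟨_, bt_line T _ hS₀, (Equiv.curry _ _ _).symm q, ?_⟩
        ext ⟨a, b⟩
        simp only [mem_image, mem_ofPred_eq, Prod.exists, Equiv.prodCongr_apply, Prod.map_apply,
          Prod.mk.injEq]
        constructor
        · rintro ⟨x, y, ⟨h3, rfl⟩, h4, h5⟩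
          exact ⟨⟨x, h3, h4⟩, h5.symm⟩
        · rintro ⟨⟨x, h3, h4⟩, h5⟩
          exact ⟨x, q, ⟨h3, rfl⟩, h4, h5.symm⟩
      · refine Or.inr ⟨(Equiv.funUnique Unit ℤ).symm p, _, bt_pow T _ hS₀, ?_⟩
        ext ⟨a, b⟩
        simp only [mem_image, mem_ofPred_eq, Prod.exists, Equiv.prodCongr_apply, Prod.map_apply,
          Prod.mk.injEq]
        constructor
        · rintro ⟨x, y, ⟨rfl, h3⟩, h4, h5⟩
          exact ⟨h4.symm, y, h3, h5⟩
        · rintro ⟨h5, y, h3, h4⟩
          exact ⟨p, y, ⟨rfl, h3⟩, h5.symm, h4⟩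
    have h3 := til_equiv _ (bt_prod T) h2
    convert h3 using 1
    rw [image_univ_of_surjective (Equiv.surjective _), image_univ_of_surjective (Equiv.surjective _)]

/-- extra coordinates do not matter -/
theorem til_extend {ι κ : Type} {T : Finset ℤ} (h : Til (BT ι T) univ) :
    Til (BT (ι ⊕ κ) T) univ := by
  have h1 : Til (prodF (BT ι T) (BT κ T)) (univ : Set ((ι → ℤ) × (κ → ℤ))) := by
    apply til_left
    intro q
    simpa using h
  have h2 := til_equiv _ (bt_prod T) h1
  convert h2 using 1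
  simp

theorem til_reindex {ι κ : Type} (e : ι ≃ κ) {T : Finset ℤ} (h : Til (BT ι T) univ) :
    Til (BT κ T) univ := by
  have h2 := til_equiv _ (bt_reindex e T) h
  convert h2 using 1
  simp

/-- For every `t` there is a `d` such that every nonempty `T` of size at most `t` tiles `ℤ^d`. -/
theorem main_fin (t : ℕ) :
    ∃ d : ℕ, ∀ T : Finset ℤ, T.Nonempty → T.card ≤ t → Til (BT (Fin d) T) univ := by
  classical
  have h : ∀ l, ∃ d : ℕ, 1 ≤ l → ∀ T : Finset ℤ, T.card = l → Til (BT (Fin d) T) univ := by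
    intro l
    by_cases hl : 1 ≤ l
    · obtain ⟨ι, _, hι⟩ := main l hl
      exact ⟨Fintype.card ι, fun _ T hT => til_reindex (Fintype.equivFin ι) (hι T hT)⟩
    · exact ⟨0, fun h => absurd h hl⟩
  choose d hd using h
  refine ⟨∑ l ∈ Finset.range (t + 1), d l, fun T hne hT => ?_⟩
  have hc : 1 ≤ T.card := Finset.card_pos.2 hne
  have h1 := hd T.card hc T rfl
  have h2 : d T.card ≤ ∑ l ∈ Finset.range (t + 1), d l :=
    Finset.single_le_sum (f := d) (fun _ _ => Nat.zero_le _)
      (Finset.mem_range.2 (by omega))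
  obtain ⟨k, hk⟩ := Nat.exists_eq_add_of_le h2
  rw [hk]
  exact til_reindex finSumFinEquiv (til_extend (κ := Fin k) h1)

end Pool.Agent.Helper32.Tile
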