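import Mathlib

set_option autoImplicit false

namespace Pool.Agent.Helper32.Tile

open Set Function

/-- `X` is partitioned into members of the family `B`. -/
def Til {P : Type*} (B : Set (Set P)) (X : Set P) : Prop :=
  ∃ τ : P → Set P, ∀ x ∈ X, τ x ∈ B ∧ x ∈ τ x ∧ τ x ⊆ X ∧ ∀ y ∈ τ x, τ y = τ x

section basic

variable {P Q : Type*} {B : Set (Set P)} {C : Set (Set Q)}

theorem til_self {S : Set P} (h : S ∈ B) : Til B S :=
  ⟨fun _ => S, fun _ hx => ⟨h, hx, Subset.rfl, fun _ _ => rfl⟩⟩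

theorem til_empty : Til B (∅ : Set P) := ⟨fun _ => ∅, fun x hx => absurd hx (by simp)⟩

/-- a choice of tiling for every tileable set -/
noncomputable def pick (B : Set (Set P)) (S : Set P) : P → Set P :=
  open Classical in if h : Til B S then h.choose else fun _ => ∅

theorem pick_spec {S : Set P} (h : Til B S) {x : P} (hx : x ∈ S) :
    pick B S x ∈ B ∧ x ∈ pick B S x ∧ pick B S x ⊆ S ∧ ∀ y ∈ pick B S x, pick B S y = pick B S x := by
  unfold pick
  rw [dif_pos h]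
  exact h.choose_spec x hx

theorem til_trans {X : Set P} (σ : P → Set P)
    (h : ∀ x ∈ X, Til B (σ x) ∧ x ∈ σ x ∧ σ x ⊆ X ∧ ∀ y ∈ σ x, σ y = σ x) : Til B X := by
  refine ⟨fun x => pick B (σ x) x, fun x hx => ?_⟩
  obtain ⟨h1, h2, h3, h4⟩ := h x hx
  obtain ⟨p1, p2, p3, p4⟩ := pick_spec h1 h2
  refine ⟨p1, p2, p3.trans h3, fun y hy => ?_⟩
  have := h4 y (p3 hy)
  simp only [this]
  exact p4 y hy

theorem til_fiber {ι : Type*} {X : Set P} (f : P → ι) (h : ∀ i, Til B {x | x ∈ X ∧ f x = i}) :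
    Til B X := by
  refine til_trans (fun x => {y | y ∈ X ∧ f y = f x}) fun x hx => ⟨h _, ⟨hx, rfl⟩, fun y hy => hy.1, ?_⟩
  rintro y ⟨hy, hy'⟩
  simp only [hy']

theorem til_union {X Y : Set P} (hX : Til B X) (hY : Til B Y) (hd : ∀ x ∈ X, x ∉ Y) :
    Til B (X ∪ Y) := by
  classical
  refine til_fiber (fun x => decide (x ∈ X)) fun i => ?_
  cases i
  · convert hY using 1
    ext x
    simp only [mem_union, decide_eq_false_iff_not]
    constructor
    · rintro ⟨h1 | h1, h2⟩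
      · exact absurd h1 h2
      · exact h1
    · intro h
      exact ⟨Or.inr h, fun h' => hd x h' h⟩
  · convert hX using 1
    ext x
    simp only [mem_union, decide_eq_true_eq]
    constructor
    · rintro ⟨_, h2⟩
      exact h2
    · intro h
      exact ⟨Or.inl h, h⟩

theorem til_if {X : Set P} (c : Prop) (h : c → Til B X) : Til B {x | c ∧ x ∈ X} := by
  by_cases hc : c
  · simpa [hc] using h hc
  · simpa [hc] using (til_empty : Til B (∅ : Set P))

theorem til_equiv (e : P ≃ Q) (he : ∀ S ∈ B, e '' S ∈ C) {X : Set P} (h : Til B X) :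
    Til C (e '' X) := by
  obtain ⟨τ, hτ⟩ := h
  refine ⟨fun y => e '' τ (e.symm y), ?_⟩
  rintro _ ⟨x, hx, rfl⟩
  obtain ⟨h1, h2, h3, h4⟩ := hτ x hx
  simp only [Equiv.symm_apply_apply]
  refine ⟨he _ h1, ⟨x, h2, rfl⟩, image_mono h3, ?_⟩
  rintro _ ⟨y, hy, rfl⟩
  simp only [Equiv.symm_apply_apply]
  rw [h4 y hy]

/-- transport of a tiling along an equivalence, preimage form -/
theorem til_equiv' (e : P ≃ Q) (he : ∀ S ∈ B, e '' S ∈ C) {Y : Set Q}
    (h : Til B {x | e x ∈ Y}) : Til C Y := by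
  have := til_equiv e he h
  convert this using 1
  ext y
  constructor
  · intro hy
    exact ⟨e.symm y, by simpa using hy, by simp⟩
  · rintro ⟨x, hx, rfl⟩
    exact hx

/-- the product family: horizontal and vertical copies -/
def prodF (B : Set (Set P)) (C : Set (Set Q)) : Set (Set (P × Q)) :=
  {S | (∃ S₀ ∈ B, ∃ q, S = {z | z.1 ∈ S₀ ∧ z.2 = q}) ∨ (∃ p, ∃ S₀ ∈ C, S = {z | z.1 = p ∧ z.2 ∈ S₀})}

theorem til_left {X : Set (P × Q)} (h : ∀ q, Til B {p | (p, q) ∈ X}) : Til (prodF B C) X := by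
  refine ⟨fun z => {z' | z'.1 ∈ pick B {p | (p, z.2) ∈ X} z.1 ∧ z'.2 = z.2}, ?_⟩
  rintro ⟨p, q⟩ hx
  have hp : p ∈ {p | (p, q) ∈ X} := hx
  obtain ⟨h1, h2, h3, h4⟩ := pick_spec (h q) hp
  refine ⟨Or.inl ⟨_, h1, q, rfl⟩, ⟨h2, rfl⟩, ?_, ?_⟩
  · rintro ⟨p', q'⟩ ⟨hp', hq'⟩
    simp only at hp' hq'
    subst hq'
    exact h3 hp'
  · rintro ⟨p', q'⟩ ⟨hp', hq'⟩
    simp only at hp' hq'
    subst hq'
    simp only
    rw [h4 p' hp']

theorem til_right {X : Set (P × Q)} (h : ∀ p, Til C {q | (p, q) ∈ X}) : Til (prodF B C) X := by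
  refine ⟨fun z => {z' | z'.1 = z.1 ∧ z'.2 ∈ pick C {q | (z.1, q) ∈ X} z.2}, ?_⟩
  rintro ⟨p, q⟩ hx
  have hq : q ∈ {q | (p, q) ∈ X} := hx
  obtain ⟨h1, h2, h3, h4⟩ := pick_spec (h p) hq
  refine ⟨Or.inr ⟨p, _, h1, rfl⟩, ⟨rfl, h2⟩, ?_, ?_⟩
  · rintro ⟨p', q'⟩ ⟨hp', hq'⟩
    simp only at hp' hq'
    subst hp'
    exact h3 hq'
  · rintro ⟨p', q'⟩ ⟨hp', hq'⟩
    simp only at hp' hq'
    subst hp'
    simp only
    rw [h4 q' hq']

/-- the power family -/
def powF (κ : Type*) [DecidableEq κ] (B : Set (Set P)) : Set (Set (κ → P)) :=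
  {S | ∃ (k : κ) (w : κ → P), ∃ S₀ ∈ B, S = update w k '' S₀}

theorem til_slice {κ : Type*} [DecidableEq κ] (k : κ) {X : Set (κ → P)}
    (h : ∀ w : κ → P, Til B {p | update w k p ∈ X}) : Til (powF κ B) X := by
  refine ⟨fun z => update z k '' pick B {p | update z k p ∈ X} (z k), ?_⟩
  intro z hz
  have hz' : z k ∈ {p | update z k p ∈ X} := by simpa using hz
  obtain ⟨h1, h2, h3, h4⟩ := pick_spec (h z) hz'
  refine ⟨⟨k, z, _, h1, rfl⟩, ⟨z k, h2, by simp⟩, ?_, ?_⟩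
  · rintro _ ⟨p, hp, rfl⟩
    exact h3 hp
  · rintro _ ⟨p, hp, rfl⟩
    simp only [update_idem, update_self]
    rw [h4 p hp]

end basic

end Pool.Agent.Helper32.Tile
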