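import Pool.Agent.Helper32.Tile.Basic

set_option autoImplicit false

namespace Pool.Agent.Helper32.Tile

open Set Function

variable {P : Type*} {B : Set (Set P)} {l : ℕ} {ψ : P → Fin (l + 1)}

/-- a subcube minus one cell is tileable -/
theorem nice1 {κ : Type*} [Fintype κ] [DecidableEq κ] (hψ : ∀ i, Til B {p | ψ p ≠ i})
    (q : κ → Fin (l + 1)) :
    ∀ (n : ℕ) (I : Finset κ), (Iᶜ).card = n →
      Til (powF κ B) {z : κ → P | (∀ D ∈ I, ψ (z D) = q D) ∧ ∃ D, ψ (z D) ≠ q D} := by
  intro n
  induction n with
  | zero =>
    intro I hI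
    convert (til_empty : Til (powF κ B) (∅ : Set (κ → P))) using 1
    ext z
    simp only [mem_ofPred_eq, mem_empty_iff_false, iff_false]
    rintro ⟨h1, D, h2⟩
    apply h2
    apply h1
    by_contra h3
    have : D ∈ Iᶜ := by simpa using h3
    rw [Finset.card_eq_zero] at hI
    rw [hI] at this
    simp at this
  | succ n ih =>
    intro I hI
    have hne : (Iᶜ).Nonempty := by
      rw [← Finset.card_pos, hI]
      omega
    obtain ⟨D, hD⟩ := hne
    have hD' : D ∉ I := by simpa using hD
    refine til_fiber (fun z => decide (ψ (z D) = q D)) fun b => ?_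
    cases b
    · apply til_slice D
      intro w
      convert til_if (B := B) (∀ D' ∈ I, ψ (w D') = q D') (fun _ => hψ (q D)) using 1
      ext p
      simp only [mem_ofPred_eq, decide_eq_false_iff_not, update_self]
      constructor
      · rintro ⟨⟨h1, h2⟩, h3⟩
        refine ⟨fun D' hD1 => ?_, h3⟩
        have := h1 D' hD1
        rwa [update_of_ne] at this
        rintro rfl
        exact hD' hD1
      · rintro ⟨h1, h3⟩
        refine ⟨⟨fun D' hD1 => ?_, D, by simpa using h3⟩, h3⟩
        rw [update_of_ne]
        · exact h1 D' hD1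
        · rintro rfl
          exact hD' hD1
    · have hc : ((insert D I)ᶜ).card = n := by
        rw [Finset.card_compl] at hI ⊢
        rw [Finset.card_insert_of_notMem hD']
        omega
      convert ih (insert D I) hc using 1
      ext z
      simp only [mem_ofPred_eq, decide_eq_true_eq, Finset.mem_insert, forall_eq_or_imp]
      constructor
      · rintro ⟨⟨h1, h2⟩, h3⟩
        exact ⟨⟨h3, h1⟩, h2⟩
      · rintro ⟨⟨h3, h1⟩, h2⟩
        exact ⟨⟨h1, h2⟩, h3⟩

/-- the combinatorial condition on the family of cells -/
structure Sep {Λ : Type*} [DecidableEq Λ] (l : ℕ) (q : Λ → Finset Λ → Fin (l + 1)) : Prop where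
  one : ∀ D : Finset Λ, D.card = l + 1 → ∀ v, (D.filter (fun a => q a D = v)).card = 1
  out : ∀ D : Finset Λ, D.card = l + 1 → ∀ a ∉ D, q a D = 0

theorem exists_sep (Λ : Type*) [DecidableEq Λ] (l : ℕ) :
    ∃ q : Λ → Finset Λ → Fin (l + 1), Sep l q := by
  classical
  refine ⟨fun a D => if h : D.card = l + 1 ∧ a ∈ D then D.equivFinOfCardEq h.1 ⟨a, h.2⟩ else 0, ?_, ?_⟩
  · intro D hD v
    rw [Finset.card_eq_one]
    refine ⟨((D.equivFinOfCardEq hD).symm v : Λ), ?_⟩
    ext a
    simp only [Finset.mem_filter, Finset.mem_singleton]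
    constructor
    · rintro ⟨h1, h2⟩
      rw [dif_pos ⟨hD, h1⟩] at h2
      rw [← h2]
      simp
    · rintro rfl
      refine ⟨Subtype.coe_prop _, ?_⟩
      rw [dif_pos ⟨hD, Subtype.coe_prop _⟩]
      simp
  · intro D hD a ha
    exact dif_neg (fun h => ha h.2)

theorem Sep.inj {Λ : Type*} [DecidableEq Λ] [Fintype Λ] {q : Λ → Finset Λ → Fin (l + 1)}
    (hq : Sep l q) (hl : 1 ≤ l) (hcard : l + 1 ≤ Fintype.card Λ) {a b : Λ} (hab : q a = q b) :
    a = b := by
  classical
  by_contra hne
  have h2 : ({a, b} : Finset Λ).card ≤ l + 1 := by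
    rw [Finset.card_pair hne]
    omega
  obtain ⟨D, hD1, -, hD3⟩ := Finset.exists_subsuperset_card_eq (Finset.subset_univ {a, b}) h2
    (by rw [Finset.card_univ]; exact hcard)
  have := hq.one D hD3 (q a D)
  rw [Finset.card_eq_one] at this
  obtain ⟨c, hc⟩ := this
  have ha : a ∈ D.filter (fun x => q x D = q a D) := by
    rw [Finset.mem_filter]
    exact ⟨hD1 (by simp), rfl⟩
  have hb : b ∈ D.filter (fun x => q x D = q a D) := by
    rw [Finset.mem_filter]
    exact ⟨hD1 (by simp), by rw [hab]⟩
  rw [hc, Finset.mem_singleton] at ha hb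
  exact hne (ha.trans hb.symm)

/-- a subcube minus `1 + l * r` cells of the special family is tileable -/
theorem nice {Λ : Type*} [Fintype Λ] [DecidableEq Λ] (hl : 1 ≤ l)
    (hψ : ∀ i, Til B {p | ψ p ≠ i}) {q : Λ → Finset Λ → Fin (l + 1)} (hq : Sep l q) :
    ∀ (n : ℕ) (Q : Finset Λ), Q.card = n → (∃ r, n = 1 + l * r) →
      ∀ (I : Finset (Finset Λ)) (w : Finset Λ → Fin (l + 1)),
        (∀ D ∈ I, ∀ a ∈ Q, q a D = w D) → (∀ D ⊆ Q, D.card = l + 1 → D ∉ I) →
        Til (powF (Finset Λ) B)
          {z : Finset Λ → P | (∀ D ∈ I, ψ (z D) = w D) ∧ ∀ a ∈ Q, ∃ D, ψ (z D) ≠ q a D} := by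
  intro n
  induction n using Nat.strong_induction_on with
  | _ n ih =>
    rintro Q hQ ⟨r, hr⟩ I w hI hD
    rcases Nat.eq_zero_or_pos r with hr0 | hr0
    · subst hr0
      have hQ1 : Q.card = 1 := by simpa [hQ] using hr
      obtain ⟨a, rfl⟩ := Finset.card_eq_one.1 hQ1
      convert nice1 hψ (q a) _ I rfl using 1
      ext z
      simp only [mem_ofPred_eq, Finset.mem_singleton, forall_eq]
      constructor
      · rintro ⟨h1, h2⟩
        exact ⟨fun D hD => by rw [h1 D hD, hI D hD a (by simp)], h2⟩
      · rintro ⟨h1, h2⟩
        exact ⟨fun D hD => by rw [h1 D hD, hI D hD a (by simp)], h2⟩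
    · have hge : l + 1 ≤ Q.card := by
        rw [hQ, hr]
        have : l * 1 ≤ l * r := Nat.mul_le_mul_left l hr0
        omega
      obtain ⟨D, hDQ, hDc⟩ := Finset.exists_subset_card_eq hge
      have hDI : D ∉ I := hD D hDQ hDc
      -- the fibres
      have hcv : ∀ v : Fin (l + 1), v ≠ 0 → (Q.filter (fun a => q a D = v)).card = 1 := by
        intro v hv
        refine Eq.trans ?_ (hq.one D hDc v)
        congr 1
        ext a
        simp only [Finset.mem_filter]
        constructor
        · rintro ⟨h1, h2⟩
          refine ⟨?_, h2⟩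
          by_contra h3
          exact hv (h2 ▸ hq.out D hDc a h3)
        · rintro ⟨h1, h2⟩
          exact ⟨hDQ h1, h2⟩
      have hc0 : (Q.filter (fun a => q a D = 0)).card = 1 + l * (r - 1) := by
        have h1 := Finset.card_eq_sum_card_fiberwise (f := fun a => q a D) (s := Q)
          (t := Finset.univ) (by intro x _; simp)
        rw [Fin.sum_univ_succ] at h1
        have h2 : ∑ i : Fin l, (Q.filter (fun a => q a D = i.succ)).card = l := by
          rw [Finset.sum_congr rfl (fun i _ => hcv i.succ (Fin.succ_ne_zero i))]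
          simp
        rw [h2, hQ, hr] at h1
        obtain ⟨r', rfl⟩ : ∃ r', r = r' + 1 := ⟨r - 1, by omega⟩
        have : l * (r' + 1) = l * r' + l := by ring
        simp only [Nat.add_sub_cancel]
        omega
      refine til_fiber (fun z => ψ (z D)) fun v => ?_
      have hlt : (Q.filter (fun a => q a D = v)).card < n ∧
          ∃ r', (Q.filter (fun a => q a D = v)).card = 1 + l * r' := by
        by_cases hv : v = 0
        · rw [hv, hc0]
          refine ⟨?_, r - 1, rfl⟩
          rw [hr]
          obtain ⟨r', rfl⟩ : ∃ r', r = r' + 1 := ⟨r - 1, by omega⟩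
          have : l * (r' + 1) = l * r' + l := by ring
          simp only [Nat.add_sub_cancel]
          omega
        · rw [hcv v hv]
          exact ⟨by omega, 0, by simp⟩
      have := ih _ hlt.1 (Q.filter (fun a => q a D = v)) rfl hlt.2 (insert D I) (update w D v)
        (by
          intro D' hD' a ha
          rw [Finset.mem_filter] at ha
          rcases Finset.mem_insert.1 hD' with h | h
          · subst h
            simp [ha.2]
          · rw [update_of_ne]
            · exact hI D' h a ha.1
            · rintro rfl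
              exact hDI h)
        (by
          intro D' hD' hc' hmem
          rcases Finset.mem_insert.1 hmem with h | h
          · subst h
            have e1 := hq.one D' hc' (if v = 0 then Fin.last l else 0)
            rw [Finset.card_eq_one] at e1
            obtain ⟨c, hc⟩ := e1
            have : c ∈ D'.filter (fun a => q a D' = if v = 0 then Fin.last l else 0) := by
              rw [hc]; simp
            rw [Finset.mem_filter] at this
            have h3 := hD' this.1
            rw [Finset.mem_filter] at h3
            have h4 := h3.2.symm.trans this.2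
            by_cases hv : v = 0
            · rw [if_pos hv, hv] at h4
              have := congrArg Fin.val h4
              simp at this
              omega
            · rw [if_neg hv] at h4
              exact hv h4
          · exact hD D' (hD'.trans (Finset.filter_subset _ _)) hc' h)
      convert this using 1
      ext z
      simp only [mem_ofPred_eq, Finset.mem_insert, forall_eq_or_imp, update_self, Finset.mem_filter]
      constructor
      · rintro ⟨⟨h1, h2⟩, h3⟩
        refine ⟨⟨h3, fun D' hD' => ?_⟩, fun a ha => h2 a ha.1⟩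
        rw [update_of_ne]
        · exact h1 D' hD'
        · rintro rfl
          exact hDI hD'
      · rintro ⟨⟨h3, h1⟩, h2⟩
        refine ⟨⟨fun D' hD' => ?_, fun a ha => ?_⟩, h3⟩
        · have := h1 D' hD'
          rwa [update_of_ne] at this
          rintro rfl
          exact hDI hD'
        · by_cases hav : q a D = v
          · exact h2 a ⟨ha, hav⟩
          · exact ⟨D, fun h => hav (h.symm.trans h3)⟩

end Pool.Agent.Helper32.Tile
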