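import Pool.Agent.Helper32.Tile.Reduce
import Pool.Agent.Helper32.Tile.Nice

set_option autoImplicit false

namespace Pool.Agent.Helper32.Tile

open Set Function

/-- greedy colouring of `ℕ` -/
theorem greedy (R : ℕ → ℕ → Prop) (k : ℕ)
    (h : ∀ n, ∀ F : Finset ℕ, (∀ m ∈ F, m < n ∧ R m n) → F.card < k) :
    ∃ c : ℕ → ℕ, (∀ n, c n < k) ∧ ∀ m n, m < n → R m n → c m ≠ c n := by
  classical
  let F : (n : ℕ) → ((m : ℕ) → m < n → ℕ) → ℕ := fun n ih =>
    if h : ∃ x, x < k ∧ ∀ (m : ℕ) (hm : m < n), R m n → ih m hm ≠ x then h.choose else 0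
  let c : ℕ → ℕ := WellFounded.fix Nat.lt_wfRel.wf F
  have hc : ∀ n, c n = F n (fun m _ => c m) := fun n => WellFounded.fix_eq _ _ _
  have hex : ∀ n, ∃ x, x < k ∧ ∀ (m : ℕ) (_ : m < n), R m n → c m ≠ x := by
    intro n
    have h1 : (((Finset.range n).filter (fun m => R m n)).image c).card < (Finset.range k).card := by
      rw [Finset.card_range]
      refine lt_of_le_of_lt Finset.card_image_le (h n _ ?_)
      intro m hm
      rw [Finset.mem_filter, Finset.mem_range] at hm
      exact hm
    obtain ⟨x, hx, hx'⟩ := Finset.exists_mem_notMem_of_card_lt_card h1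
    refine ⟨x, Finset.mem_range.1 hx, fun m hm hR hmx => hx' ?_⟩
    rw [Finset.mem_image]
    exact ⟨m, Finset.mem_filter.2 ⟨Finset.mem_range.2 hm, hR⟩, hmx⟩
  have hsp : ∀ n, c n < k ∧ ∀ (m : ℕ) (_ : m < n), R m n → c m ≠ c n := by
    intro n
    rw [hc n]
    simp only [F]
    rw [dif_pos (hex n)]
    exact (hex n).choose_spec
  exact ⟨c, fun n => (hsp n).1, fun m n hmn hR => (hsp n).2 m hmn hR⟩

/-- a proper colouring of the conflict graph of the translates of `T` -/
theorem exists_colouring (T : Finset ℤ) (hT : T.Nonempty) :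
    ∃ c : ℤ → ℕ, (∀ y, c y < T.card * T.card) ∧
      ∀ y y' x, x - y ∈ T → x - y' ∈ T → c y = c y' → y = y' := by
  classical
  let e : ℤ ≃ ℕ := Equiv.intEquivNat
  obtain ⟨c, h1, h2⟩ := greedy (fun m n => ∃ x, x - e.symm m ∈ T ∧ x - e.symm n ∈ T)
    (T.card * T.card) (by
      intro n F hF
      -- the neighbours, together with `n` itself, inject into `T × T`
      have hn : n ∉ F := fun h => lt_irrefl _ (hF n h).1
      have hsub : insert n F ⊆ (T ×ˢ T).image (fun st => e (e.symm n + st.1 - st.2)) := by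
        intro m hm
        rw [Finset.mem_image]
        rcases Finset.mem_insert.1 hm with rfl | hm
        · obtain ⟨s, hs⟩ := hT
          exact ⟨(s, s), Finset.mem_product.2 ⟨hs, hs⟩, by simp⟩
        · obtain ⟨x, hx1, hx2⟩ := (hF m hm).2
          refine ⟨(x - e.symm n, x - e.symm m), Finset.mem_product.2 ⟨hx2, hx1⟩, ?_⟩
          simp
      have := Finset.card_le_card hsub
      rw [Finset.card_insert_of_notMem hn] at this
      have h3 : ((T ×ˢ T).image (fun st => e (e.symm n + st.1 - st.2))).card ≤ T.card * T.card := by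
        refine Finset.card_image_le.trans ?_
        rw [Finset.card_product]
      omega)
  refine ⟨fun y => c (e y), fun y => h1 _, ?_⟩
  intro y y' x hy hy' hc
  by_contra hne
  have hne' : e y ≠ e y' := fun h => hne (e.injective h)
  rcases lt_or_gt_of_ne hne' with h | h
  · exact h2 _ _ h ⟨x, by simpa using hy, by simpa using hy'⟩ hc
  · exact h2 _ _ h ⟨x, by simpa using hy', by simpa using hy⟩ hc.symm

theorem half_charge (T : Finset ℤ) (a : ℤ) (ha : a ∈ T) (hmin : ∀ s ∈ T, a ≤ s) :
    ∃ v : ℤ → ℤ, ∀ x, ∑ s ∈ T, v (x - s) = if 0 ≤ x then 1 else 0 := by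
  classical
  let F : (n : ℕ) → ((m : ℕ) → m < n → ℤ) → ℤ := fun n ih =>
    1 - ∑ s ∈ T, if h : a < s ∧ s - a ≤ (n : ℤ) then ih ((n : ℤ) - (s - a)).toNat (by omega) else 0
  let w : ℕ → ℤ := WellFounded.fix Nat.lt_wfRel.wf F
  have hw : ∀ n, w n = 1 - ∑ s ∈ T, if a < s ∧ s - a ≤ (n : ℤ) then w ((n : ℤ) - (s - a)).toNat
      else 0 := by
    intro n
    have : w n = F n (fun m _ => w m) := WellFounded.fix_eq _ _ _
    rw [this]
    simp only [F]
    congr 1
  refine ⟨fun y => if 0 ≤ y + a then w (y + a).toNat else 0, fun x => ?_⟩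
  by_cases hx : 0 ≤ x
  · rw [if_pos hx]
    obtain ⟨n, rfl⟩ := Int.eq_ofNat_of_zero_le hx
    have h1 : ∀ s ∈ T, (if 0 ≤ (n : ℤ) - s + a then w ((n : ℤ) - s + a).toNat else 0) =
        (if s = a then w n else 0) +
          (if a < s ∧ s - a ≤ (n : ℤ) then w ((n : ℤ) - (s - a)).toNat else 0) := by
      intro s hs
      have hs' := hmin s hs
      by_cases h : s = a
      · subst h
        simp
      · have h' : a < s := lt_of_le_of_ne hs' (Ne.symm h)
        rw [if_neg h, zero_add]
        by_cases h2 : s - a ≤ (n : ℤ)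
        · rw [if_pos (by omega), if_pos ⟨h', h2⟩]
          congr 2
          ring
        · rw [if_neg (by omega), if_neg (by tauto)]
    rw [Finset.sum_congr rfl h1, Finset.sum_add_distrib, Finset.sum_ite_eq' T a, if_pos ha]
    have := hw n
    omega
  · rw [if_neg hx]
    apply Finset.sum_eq_zero
    intro s hs
    have := hmin s hs
    exact if_neg (by omega)

/-- the linear recurrence `∑ u (x - s) = 1` is solvable -/
theorem exists_charge (T : Finset ℤ) (hT : T.Nonempty) :
    ∃ u : ℤ → ℤ, ∀ x, ∑ s ∈ T, u (x - s) = 1 := by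
  classical
  obtain ⟨v, hv⟩ := half_charge T (T.min' hT) (T.min'_mem hT) (fun s hs => T.min'_le s hs)
  obtain ⟨v', hv'⟩ := half_charge (T.image (fun s => -s)) (-(T.max' hT))
    (Finset.mem_image.2 ⟨_, T.max'_mem hT, rfl⟩) (by
      intro s hs
      obtain ⟨s', hs', rfl⟩ := Finset.mem_image.1 hs
      have := T.le_max' s' hs'
      omega)
  refine ⟨fun y => v y + v' (-1 - y), fun x => ?_⟩
  rw [Finset.sum_add_distrib, hv x]
  have h1 := hv' (-1 - x)
  rw [Finset.sum_image (by intro a _ b _ h; simpa using h)] at h1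
  have h2 : ∑ s ∈ T, v' (-1 - (x - s)) = ∑ s ∈ T, v' (-1 - x - -s) := by
    apply Finset.sum_congr rfl
    intro s _
    congr 1
    ring
  rw [h2, h1]
  by_cases hx : 0 ≤ x
  · rw [if_pos hx, if_neg (by omega)]; rfl
  · rw [if_neg hx, if_pos (by omega)]; rfl

/-- the translates of `T` on the line -/
def lineF (T : Finset ℤ) : Set (Set ℤ) := {S | ∃ y : ℤ, S = {x | x - y ∈ T}}

theorem til_translates (T : Finset ℤ) (Y : ℤ → Prop)
    (h : ∀ y y' x, Y y → Y y' → x - y ∈ T → x - y' ∈ T → y = y') :
    Til (lineF T) {x | ∃ y, Y y ∧ x - y ∈ T} := by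
  classical
  refine ⟨fun x => if h : ∃ y, Y y ∧ x - y ∈ T then {x' | x' - h.choose ∈ T} else ∅, ?_⟩
  intro x hx
  have hx0 : ∃ y, Y y ∧ x - y ∈ T := hx
  simp only [dif_pos hx0]
  have hsp := hx0.choose_spec
  refine ⟨⟨_, rfl⟩, hsp.2, ?_, ?_⟩
  · intro x' hx'
    exact ⟨_, hsp.1, hx'⟩
  · intro x' hx'
    have hx1 : ∃ y, Y y ∧ x' - y ∈ T := ⟨_, hsp.1, hx'⟩
    rw [dif_pos hx1]
    have hsp' := hx1.choose_spec
    rw [h _ _ x' hsp.1 hsp'.1 hx' hsp'.2]

theorem base (T : Finset ℤ) (hT : T.Nonempty) :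
    ∃ L : ℤ → Finset ℕ, Good (lineF T) T.card (T.card * T.card) L := by
  classical
  obtain ⟨c, hc1, hc2⟩ := exists_colouring T hT
  refine ⟨fun x => T.image (fun s => c (x - s)), ?_, ?_, ?_⟩
  · intro x i hi
    obtain ⟨s, _, rfl⟩ := Finset.mem_image.1 hi
    exact Finset.mem_range.2 (hc1 _)
  · intro x
    rw [Finset.card_image_of_injOn]
    intro s hs s' hs' h
    have := hc2 (x - s) (x - s') x (by simpa using hs) (by simpa using hs') h
    linarith
  · intro i
    convert til_translates T (fun y => c y = i) (by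
      intro y y' x h1 h2 h3 h4
      exact hc2 y y' x h3 h4 (h1.trans h2.symm)) using 1
    ext x
    simp only [mem_ofPred_eq, Finset.mem_image]
    constructor
    · rintro ⟨s, hs, h⟩
      exact ⟨x - s, h, by simpa using hs⟩
    · rintro ⟨y, h, hy⟩
      exact ⟨x - y, hy, by simpa using h⟩

/-- The final step. -/
theorem final {P : Type*} {B : Set (Set P)} (T : Finset ℤ) {l : ℕ} (hl : T.card = l) (hT : 2 ≤ l)
    {ψ : P → Fin (l + 1)} (hψ : ∀ i, Til B {p | ψ p ≠ i}) :
    Til (prodF (lineF T) (powF (Finset (Fin (l * l) × Fin l)) B))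
      (univ : Set (ℤ × (Finset (Fin (l * l) × Fin l) → P))) := by
  classical
  have hne : T.Nonempty := by
    rw [← Finset.card_pos]
    omega
  obtain ⟨c, hc1, hc2⟩ := exists_colouring T hne
  rw [hl] at hc1
  obtain ⟨u, hu⟩ := exists_charge T hne
  obtain ⟨q, hq⟩ := exists_sep (Fin (l * l) × Fin l) l
  have hl0 : (0 : ℤ) < l := by
    have : 0 < l := by omega
    exact_mod_cast this
  let uu : ℤ → ℕ := fun y => (u y % l).toNat
  have huu : ∀ y, ((uu y : ℕ) : ℤ) = u y % l := fun y =>
    Int.toNat_of_nonneg (Int.emod_nonneg _ (ne_of_gt hl0))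
  have huul : ∀ y, uu y < l := by
    intro y
    have := Int.emod_lt_of_pos (u y) hl0
    rw [← huu y] at this
    exact_mod_cast this
  let lab : ℤ → Finset (Fin (l * l) × Fin l) := fun y =>
    Finset.univ.filter (fun a => (a.1 : ℕ) = c y ∧ (a.2 : ℕ) < uu y)
  have hlab : ∀ y, (lab y).card = uu y := by
    intro y
    have : lab y = (Finset.univ.filter (fun v : Fin l => (v : ℕ) < uu y)).image
        (fun v => ((⟨c y, hc1 y⟩ : Fin (l * l)), v)) := by
      ext ⟨a, v⟩
      simp only [lab, Finset.mem_filter, Finset.mem_univ, true_and, Finset.mem_image, Prod.mk.injEq]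
      constructor
      · rintro ⟨h1, h2⟩
        exact ⟨v, h2, Fin.ext h1.symm, rfl⟩
      · rintro ⟨v', h2, h1, rfl⟩
        exact ⟨by rw [← h1], h2⟩
    rw [this, Finset.card_image_of_injective _ (fun a b h => (Prod.mk.inj h).2)]
    rw [Fin.card_filter_val_lt]
    exact min_eq_right (huul y).le
  let QQ : ℤ → Finset (Fin (l * l) × Fin l) := fun x => T.biUnion (fun s => lab (x - s))
  have hQQ : ∀ x, ∃ r, (QQ x).card = 1 + l * r := by
    intro x
    have h1 : (QQ x).card = ∑ s ∈ T, uu (x - s) := by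
      simp only [QQ]
      rw [Finset.card_biUnion]
      · exact Finset.sum_congr rfl (fun s _ => hlab _)
      · intro s hs s' hs' hss
        rw [Function.onFun, Finset.disjoint_left]
        intro a ha ha'
        simp only [lab, Finset.mem_filter, Finset.mem_univ, true_and] at ha ha'
        have := hc2 (x - s) (x - s') x (by simpa using hs) (by simpa using hs')
          (ha.1.symm.trans ha'.1)
        exact hss (by linarith)
    have h2 : (((QQ x).card : ℕ) : ℤ) % l = 1 % l := by
      rw [h1, Nat.cast_sum, Finset.sum_int_mod]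
      rw [← hu x, Finset.sum_int_mod (s := T) (f := fun s => u (x - s))]
      congr 1
      apply Finset.sum_congr rfl
      intro s _
      rw [huu, Int.emod_emod_of_dvd _ (dvd_refl _)]
    have h3 : (QQ x).card % l = 1 := by
      have : ((((QQ x).card % l : ℕ)) : ℤ) = ((1 % l : ℕ) : ℤ) := by
        push_cast
        exact h2
      have h4 : (QQ x).card % l = 1 % l := by exact_mod_cast this
      rw [h4]
      exact Nat.mod_eq_of_lt (by omega)
    refine ⟨(QQ x).card / l, ?_⟩
    have := Nat.mod_add_div (QQ x).card l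
    omega
  refine til_fiber (fun z => decide (∃ a ∈ QQ z.1, ∀ D, ψ (z.2 D) = q a D)) fun b => ?_
  cases b
  · apply til_right
    intro x
    convert nice (B := B) (ψ := ψ) (by omega) hψ hq _ (QQ x) rfl (hQQ x) ∅ (fun _ => 0)
      (by simp) (by simp) using 1
    ext z
    simp only [mem_ofPred_eq, mem_univ, true_and, decide_eq_false_iff_not]
    simp only [Finset.notMem_empty, false_imp_iff, implies_true, true_and]
    push Not
    rfl
  · apply til_left
    intro z
    by_cases hz : ∃ a, ∀ D, ψ (z D) = q a D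
    · obtain ⟨a, ha⟩ := hz
      convert til_translates T (fun y => a ∈ lab y) (by
        intro y y' x h1 h2 h3 h4
        simp only [lab, Finset.mem_filter, Finset.mem_univ, true_and] at h1 h2
        exact hc2 y y' x h3 h4 (h1.1.symm.trans h2.1)) using 1
      ext x
      simp only [mem_ofPred_eq, mem_univ, true_and, decide_eq_true_eq]
      constructor
      · rintro ⟨a', ha', h⟩
        have : a = a' := by
          apply hq.inj (by omega)
          · simp only [Fintype.card_prod, Fintype.card_fin]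
            nlinarith
          · funext D
            rw [← ha D, h D]
        subst this
        obtain ⟨s, hs, h2⟩ := Finset.mem_biUnion.1 ha'
        exact ⟨x - s, h2, by simpa using hs⟩
      · rintro ⟨y, hy1, hy2⟩
        exact ⟨a, Finset.mem_biUnion.2 ⟨x - y, hy2, by simpa using hy1⟩, ha⟩
    · convert (til_empty : Til (lineF T) (∅ : Set ℤ)) using 1
      ext x
      simp only [mem_ofPred_eq, mem_univ, true_and, decide_eq_true_eq, mem_empty_iff_false,
        iff_false]
      rintro ⟨a, _, h⟩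
      exact hz ⟨a, h⟩

end Pool.Agent.Helper32.Tile
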