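import Pool.Agent.Helper32.Tile.Basic

set_option autoImplicit false

namespace Pool.Agent.Helper32.Tile

open Set Function

/-- `L` is an `ℓ`-fold colouring of `P` by the colours `< M`: every point gets `ℓ` colours, and
every colour class is tileable. -/
structure Good {P : Type*} (B : Set (Set P)) (l M : ℕ) (L : P → Finset ℕ) : Prop where
  sub : ∀ p, L p ⊆ Finset.range M
  card : ∀ p, (L p).card = l
  til : ∀ i, Til B {p | i ∈ L p}

variable {P Q : Type*} {B : Set (Set P)} {C : Set (Set Q)}

/-- If no colour of `{l, …, M}` is used at `p`, then `L p = {0, …, l-1}`. -/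
theorem Good.eq_range {l M : ℕ} {L : P → Finset ℕ} (hL : Good B l (M + 1) L) {p : P}
    (hp : ∀ j ∈ Finset.Ico l (M + 1), j ∉ L p) : L p = Finset.range l := by
  apply Finset.eq_of_subset_of_card_le
  · intro j hj
    have h1 := Finset.mem_range.1 (hL.sub p hj)
    by_contra h2
    exact hp j (Finset.mem_Ico.2 ⟨by simpa using h2, h1⟩) hj
  · rw [Finset.card_range, hL.card p]

/-- Two sets of `M + 1 - l` tileable sets cover the square. -/
theorem cover {l M : ℕ} (hl : 1 ≤ l) (hM : l + 1 ≤ M) {L : P → Finset ℕ}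
    (hL : Good B l (M + 1) L) :
    ∃ Z : ℕ → Set (P × P), (∀ j ∈ Finset.Ico l (M + 1), Til (prodF B B) (Z j)) ∧
      ∀ x : P × P, ∃ j ∈ Finset.Ico l (M + 1), x ∈ Z j := by
  classical
  set E : Set P := {p | ∀ j ∈ Finset.Ico l (M + 1), j ∉ L p} with hE
  set E' : Set P := {p | 0 ∉ L p ∧ ∀ j ∈ Finset.Ico (l + 1) (M + 1), j ∉ L p} with hE'
  set s : ℕ → ℕ := fun j => if j = l then 0 else j with hs
  have hE0 : ∀ p ∈ E, 0 ∈ L p := by
    intro p hp
    rw [hL.eq_range hp, Finset.mem_range]
    omega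
  have hEj : ∀ p ∈ E, ∀ j, l ≤ j → j ≤ M → j ∉ L p := fun p hp j h1 h2 =>
    hp j (Finset.mem_Ico.2 ⟨h1, by omega⟩)
  have hE'j : ∀ p ∈ E', ∀ j, l + 1 ≤ j → j ≤ M → j ∉ L p := fun p hp j h1 h2 =>
    hp.2 j (Finset.mem_Ico.2 ⟨h1, by omega⟩)
  have hE'0 : ∀ p ∈ E', 0 ∉ L p := fun p hp => hp.1
  have hsM : s M = M := by
    simp only [hs]
    rw [if_neg (by omega)]
  refine ⟨fun j => {x | (x.2 ∉ E ∧ j ∈ L x.1) ∨ (x.2 ∈ E ∧ s j ∈ L x.1)} ∪
    {x | (x.1 ∈ E ∧ j ∈ L x.2) ∨ (j = M ∧ x.1 ∈ E' ∧ 0 ∈ L x.2)}, ?_, ?_⟩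
  · intro j hj
    rw [Finset.mem_Ico] at hj
    apply til_union
    · apply til_left
      intro q
      by_cases hq : q ∈ E
      · convert hL.til (s j) using 1
        ext p
        simp [hq]
      · convert hL.til j using 1
        ext p
        simp [hq]
    · apply til_right
      intro p
      by_cases hp : p ∈ E
      · have hp' : p ∉ E' := fun h => hE'0 p h (hE0 p hp)
        convert hL.til j using 1
        ext q
        simp [hp, hp']
      · by_cases hc : j = M ∧ p ∈ E'
        · convert hL.til 0 using 1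
          ext q
          simp [hp, hc.1, hc.2]
        · convert (til_empty : Til B (∅ : Set P)) using 1
          ext q
          simp only [mem_ofPred_eq, mem_empty_iff_false, iff_false]
          rintro (⟨h1, _⟩ | ⟨h1, h2, _⟩)
          · exact hp h1
          · exact hc ⟨h1, h2⟩
    · rintro ⟨p, q⟩ h1 h2
      simp only [mem_ofPred_eq] at h1 h2
      rcases h1 with ⟨hq, hp⟩ | ⟨hq, hp⟩
      · rcases h2 with ⟨h3, _⟩ | ⟨h3, h4, _⟩
        · exact hEj p h3 j hj.1 (by omega) hp
        · exact hE'j p h4 j (by omega) (by omega) hp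
      · rcases h2 with ⟨_, h4⟩ | ⟨h3, h4, _⟩
        · exact hEj q hq j hj.1 (by omega) h4
        · rw [h3, hsM] at hp
          exact hE'j p h4 M (by omega) le_rfl hp
  · rintro ⟨p, q⟩
    by_cases hq : q ∈ E
    · by_cases hp : p ∈ E'
      · exact ⟨M, Finset.mem_Ico.2 ⟨by omega, by omega⟩, Or.inr (Or.inr ⟨rfl, hp, hE0 q hq⟩)⟩
      · rw [hE'] at hp
        simp only [mem_ofPred_eq, not_and_or, not_not, not_forall] at hp
        rcases hp with hp | ⟨j, hj, hp⟩
        · refine ⟨l, Finset.mem_Ico.2 ⟨le_rfl, by omega⟩, Or.inl (Or.inr ⟨hq, ?_⟩)⟩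
          simpa [hs] using hp
        · rw [Finset.mem_Ico] at hj
          refine ⟨j, Finset.mem_Ico.2 ⟨by omega, hj.2⟩, Or.inl (Or.inr ⟨hq, ?_⟩)⟩
          simp only [hs]
          rw [if_neg (by omega)]
          exact hp
    · by_cases hp : p ∈ E
      · rw [hE] at hq
        simp only [mem_ofPred_eq, not_forall, not_not] at hq
        obtain ⟨j, hj, hq⟩ := hq
        exact ⟨j, hj, Or.inr (Or.inl ⟨hp, hq⟩)⟩
      · rw [hE] at hp
        simp only [mem_ofPred_eq, not_forall, not_not] at hp
        obtain ⟨j, hj, hp⟩ := hp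
        exact ⟨j, hj, Or.inl (Or.inl ⟨hq, hp⟩)⟩

/-- a bijection from `A ∩ H` onto the complement of `A ∪ H` -/
theorem exists_beta {l M : ℕ} (hM : l ≤ M) (A : Finset ℕ) (h1 : A ⊆ Finset.range (M + 1))
    (h2 : A.card = l) :
    ∃ β : ℕ → ℕ, (∀ a ∈ A, a ∈ Finset.Ico l (M + 1) →
        β a < M + 1 ∧ β a ∉ A ∧ β a ∉ Finset.Ico l (M + 1)) ∧
      ∀ a ∈ A, a ∈ Finset.Ico l (M + 1) → ∀ b ∈ A, b ∈ Finset.Ico l (M + 1) → β a = β b → a = b := by
  classical
  set H := Finset.Ico l (M + 1) with hH
  have hHs : H ⊆ Finset.range (M + 1) := by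
    intro j hj
    rw [hH, Finset.mem_Ico] at hj
    exact Finset.mem_range.2 hj.2
  have hcard : (A ∩ H).card = (Finset.range (M + 1) \ (A ∪ H)).card := by
    rw [Finset.card_sdiff_of_subset (Finset.union_subset h1 hHs), Finset.card_range]
    have := Finset.card_union_add_card_inter A H
    have hHc : H.card = M + 1 - l := by rw [hH, Nat.card_Ico]
    have hle : (A ∪ H).card ≤ M + 1 := by
      have := Finset.card_le_card (Finset.union_subset h1 hHs)
      rwa [Finset.card_range] at this
    omega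
  let e := Finset.equivOfCardEq hcard
  refine ⟨fun a => if h : a ∈ A ∩ H then (e ⟨a, h⟩ : ℕ) else a, ?_, ?_⟩
  · intro a ha ha'
    have hm : a ∈ A ∩ H := Finset.mem_inter.2 ⟨ha, ha'⟩
    simp only [dif_pos hm]
    have := (e ⟨a, hm⟩).2
    rw [Finset.mem_sdiff, Finset.mem_range, Finset.mem_union, not_or] at this
    exact ⟨this.1, this.2.1, this.2.2⟩
  · intro a ha ha' b hb hb' hab
    have hm : a ∈ A ∩ H := Finset.mem_inter.2 ⟨ha, ha'⟩
    have hm' : b ∈ A ∩ H := Finset.mem_inter.2 ⟨hb, hb'⟩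
    simp only [dif_pos hm, dif_pos hm'] at hab
    have := e.injective (Subtype.ext hab)
    exact congrArg Subtype.val this

/-- The reduction: with the help of a space `Q` covered by `M + 1 - l` tileable sets, one colour
can be removed. -/
theorem reduce {l M : ℕ} (hM : l ≤ M) {L : P → Finset ℕ} (hL : Good B l (M + 1) L)
    {Z : ℕ → Set Q} (hZ : ∀ j ∈ Finset.Ico l (M + 1), Til C (Z j))
    (cov : ∀ q, ∃ j ∈ Finset.Ico l (M + 1), q ∈ Z j) :
    ∃ L' : P × Q → Finset ℕ, Good (prodF B C) l M L' := by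
  classical
  choose i hiH hiZ using cov
  choose β hβ1 hβ2 using fun p => exists_beta (l := l) (M := M) hM (L p) (hL.sub p) (hL.card p)
  set H := Finset.Ico l (M + 1) with hH
  have hMH : M ∈ H := Finset.mem_Ico.2 ⟨hM, by omega⟩
  let κ : P → Q → ℕ → ℕ := fun p q a =>
    if M ∈ L p then (if a ∈ H ∧ q ∈ Z a then β p a else if a = M then i q else a) else a
  have inj : ∀ p q, ∀ a ∈ L p, ∀ b ∈ L p, κ p q a = κ p q b → a = b := by
    intro p q a ha b hb hab
    simp only [κ] at hab
    by_cases hp : M ∈ L p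
    · rw [if_pos hp, if_pos hp] at hab
      by_cases h1 : a ∈ H ∧ q ∈ Z a
      · by_cases h2 : b ∈ H ∧ q ∈ Z b
        · rw [if_pos h1, if_pos h2] at hab
          exact hβ2 p a ha h1.1 b hb h2.1 hab
        · rw [if_pos h1, if_neg h2] at hab
          obtain ⟨g1, g2, g3⟩ := hβ1 p a ha h1.1
          by_cases h3 : b = M
          · rw [if_pos h3] at hab
            exact absurd (hab ▸ hiH q) g3
          · rw [if_neg h3] at hab
            exact absurd (hab ▸ hb) g2
      · by_cases h2 : b ∈ H ∧ q ∈ Z b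
        · rw [if_neg h1, if_pos h2] at hab
          obtain ⟨g1, g2, g3⟩ := hβ1 p b hb h2.1
          by_cases h3 : a = M
          · rw [if_pos h3] at hab
            exact absurd (hab ▸ hiH q) g3
          · rw [if_neg h3] at hab
            exact absurd (hab ▸ ha) g2
        · rw [if_neg h1, if_neg h2] at hab
          by_cases h3 : a = M
          · by_cases h4 : b = M
            · rw [h3, h4]
            · rw [if_pos h3, if_neg h4] at hab
              exact absurd ⟨hab ▸ hiH q, hab ▸ hiZ q⟩ h2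
          · by_cases h4 : b = M
            · rw [if_neg h3, if_pos h4] at hab
              exact absurd ⟨hab ▸ hiH q, hab ▸ hiZ q⟩ h1
            · rwa [if_neg h3, if_neg h4] at hab
    · rwa [if_neg hp, if_neg hp] at hab
  refine ⟨fun z => (L z.1).image (κ z.1 z.2), ?_, ?_, ?_⟩
  · rintro ⟨p, q⟩ c hc
    simp only [Finset.mem_image] at hc
    obtain ⟨a, ha, rfl⟩ := hc
    have haM := Finset.mem_range.1 (hL.sub p ha)
    rw [Finset.mem_range]
    simp only [κ]
    split_ifs with h1 h2 h3
    · obtain ⟨g1, g2, g3⟩ := hβ1 p a ha h2.1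
      rcases Nat.lt_succ_iff_lt_or_eq.1 g1 with g | g
      · exact g
      · exact absurd (g ▸ hMH) g3
    · have g1 := Finset.mem_Ico.1 (hiH q)
      rcases Nat.lt_succ_iff_lt_or_eq.1 g1.2 with g | g
      · exact g
      · subst h3
        exact absurd ⟨hMH, by have := hiZ q; rwa [g] at this⟩ h2
    · omega
    · have : a ≠ M := by
        rintro rfl
        exact h1 ha
      omega
  · rintro ⟨p, q⟩
    rw [Finset.card_image_of_injOn, hL.card]
    intro a ha b hb hab
    exact inj p q a ha b hb hab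
  · intro j
    have key : ∀ a, Til (prodF B C) {z : P × Q | a ∈ L z.1 ∧ κ z.1 z.2 a = j} := by
      intro a
      refine til_fiber (fun z => decide (a ∈ H ∧ z.2 ∈ Z a)) fun bb => ?_
      cases bb
      · apply til_left
        intro q
        convert til_if (B := B) (X := {p | a ∈ L p})
          (¬ (a ∈ H ∧ q ∈ Z a) ∧ (if a = M then i q else a) = j) (fun _ => hL.til a) using 1
        ext p
        simp only [mem_ofPred_eq, decide_eq_false_iff_not]
        constructor
        · rintro ⟨⟨h1, h2⟩, h3⟩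
          refine ⟨⟨h3, ?_⟩, h1⟩
          simp only [κ, if_neg h3] at h2
          by_cases h4 : a = M
          · subst h4
            simpa [h1] using h2
          · simpa [h4] using h2
        · rintro ⟨⟨h3, h2⟩, h1⟩
          refine ⟨⟨h1, ?_⟩, h3⟩
          simp only [κ, if_neg h3]
          by_cases h4 : a = M
          · subst h4
            simpa [h1] using h2
          · simpa [h4] using h2
      · apply til_right
        intro p
        have : Til C {q : Q | ((if M ∈ L p then β p a else a) = j ∧ a ∈ L p ∧ a ∈ H) ∧ q ∈ Z a} :=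
          til_if _ (fun h => hZ a h.2.2)
        convert this using 1
        ext q
        simp only [mem_ofPred_eq, decide_eq_true_eq]
        constructor
        · rintro ⟨⟨h1, h2⟩, h3⟩
          refine ⟨⟨?_, h1, h3.1⟩, h3.2⟩
          simpa only [κ, if_pos h3] using h2
        · rintro ⟨⟨h2, h1, h3⟩, h4⟩
          refine ⟨⟨h1, ?_⟩, h3, h4⟩
          simpa only [κ, if_pos (show a ∈ H ∧ q ∈ Z a from ⟨h3, h4⟩)] using h2
    refine til_fiber (fun z => if h : ∃ a ∈ L z.1, κ z.1 z.2 a = j then h.choose else 0) fun a => ?_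
    have hka : {z : P × Q | z ∈ {p : P × Q | j ∈ (L p.1).image (κ p.1 p.2)} ∧
        (if h : ∃ a ∈ L z.1, κ z.1 z.2 a = j then h.choose else 0) = a} =
        {z : P × Q | a ∈ L z.1 ∧ κ z.1 z.2 a = j} := by
      ext z
      simp only [mem_ofPred_eq, Finset.mem_image]
      constructor
      · rintro ⟨h1, h2⟩
        rw [dif_pos h1] at h2
        have := h1.choose_spec
        rw [h2] at this
        exact this
      · intro h
        have h1 : ∃ a ∈ L z.1, κ z.1 z.2 a = j := ⟨a, h⟩
        refine ⟨h1, ?_⟩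
        rw [dif_pos h1]
        have := h1.choose_spec
        exact inj z.1 z.2 _ this.1 _ h.1 (this.2.trans h.2.symm)
    rw [hka]
    exact key a

end Pool.Agent.Helper32.Tile
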